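import Mathlib
import Pool.Agent.H30R2.BC.HN

set_option autoImplicit false

/-! # P versus NP over the complex numbers: the bit cost of deciding 0-1 systems

The systems `y_i ^ 2 - y_i = 0` (`i < k`), `∑ 2 ^ i y_i - z = 0` of `k + 1` equations in `k` unknowns
are solvable over `ℂ` if and only if `z` is one of the integers `0, ..., 2 ^ k - 1`.  Randomized
computation trees over `ℂ`, with the four arithmetical operations, arbitrary integer constants and
tests for zero, which decide the solvability of these systems for the natural numbers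
`z < 2 ^ (k + 1)` with error `ε < 1 / 2` need a bit cost of `(1 - 2 ε) 2 ^ k / 32`, where the bit cost
is the sum of the numbers of bits of the numerators of the tested numbers and of the divisors only.
The exhaustive search has the bit cost `2 ^ k (k + 1)` at most.

The definitions (`Tree`, `Tree.accepts`, `Tree.cost`, `sys`, `coeffs`, `Solvable`) are in
`Pool/Agent/H30R2/BC/Tree.lean` and `Pool/Agent/H30R2/BC/HN.lean` of the starting repository, as are
the proofs. -/

namespace Pool.Agent.Results.MP_641cb6_lc.BitCost

open Pool.Agent.H30R2.BC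

/-- (1) The system with the natural number `z` is solvable over `ℂ` if and only if `z < 2 ^ k`.
(2) Lower bound: let a randomized tree (the tree `t ω` with the same probability for each `ω`) be
such that for every natural number `z < 2 ^ (k + 1)`, with probability at least `1 - ε`, the tree
decides the solvability of the system correctly and with bit cost at most `C`.  If `k ≥ 16` and
`ε < 1 / 2` then `C ≥ (1 - 2 ε) 2 ^ k / 32`.
(3) Upper bound: there is one tree (without divisions) which decides the solvability of all the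
systems with `z < 2 ^ (k + 1)` with bit cost at most `2 ^ k (k + 1)`. -/
theorem result (k : ℕ) :
    (∀ z : ℕ, Solvable (sys ℂ k (z : ℂ)) ↔ z < 2 ^ k) ∧
    (16 ≤ k → ∀ (Ω : Type) [Fintype Ω] [Nonempty Ω]
      (t : Ω → Pool.Agent.H30R2.BC.Tree (Fin (k + 1) × (Fin k →₀ ℕ))) (C ε : ℝ), ε < 1 / 2 →
      (∀ z : ℕ, z < 2 ^ (k + 1) → (1 - ε) * Nat.card Ω ≤ Nat.card {ω //
        ((t ω).accepts (coeffs (sys ℂ k z)) = true ↔ Solvable (sys ℂ k z)) ∧
          ((t ω).cost (coeffs (sys ℚ k z)) : ℝ) ≤ C}) →
      (1 - 2 * ε) * 2 ^ k / 32 ≤ C) ∧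
    ∃ s : Pool.Agent.H30R2.BC.Tree (Fin (k + 1) × (Fin k →₀ ℕ)), ∀ z : ℕ, z < 2 ^ (k + 1) →
      (s.accepts (coeffs (sys ℂ k z)) = true ↔ Solvable (sys ℂ k z)) ∧
        s.cost (coeffs (sys ℚ k z)) ≤ 2 ^ k * (k + 1) :=
  ⟨fun z => solvable_iff k z, fun hk Ω _ _ t C ε hε h => hn_lower_bound k hk Ω t C ε hε h,
    search k, fun z hz => hn_upper_bound k z hz⟩

end Pool.Agent.Results.MP_641cb6_lc.BitCost
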