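import Pool.Agent.H546R2.BS.D1

set_option autoImplicit false

/-!
# Solvability of real polynomial systems needs time `N ^ (4/3)` over the reals

Machines over `ℝ` with arbitrary real constants and order tests. The machines (`Machine`),
computation trees (`Tree`), systems (`Coef`, `Solvable`, `Solvable01`, `size`) and encodings
(`Encoding`) are defined in `Pool/Agent/H546R2/BS`.
-/

namespace Pool.Agent.Results.MP_641cb6_lc.RealFourThirdsPower

open Pool.Agent.H546R2.BS

/-- The branching condition of the machines over `ℝ`. -/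
abbrev isNonneg (x : ℝ) : Prop := 0 ≤ x

/-- The system with real coefficients `a` has a common zero in `ℂ`. -/
abbrev SolvableC {m k : ℕ} (deg : Fin k → ℕ) (a : Coef (Fin m) deg → ℝ) : Prop :=
  Solvable deg (fun c => ((a c : ℝ) : ℂ))

theorem solvableC_of_solvable {m k : ℕ} (deg : Fin k → ℕ) (a : Coef (Fin m) deg → ℝ)
    (h : Solvable deg a) : SolvableC deg a := by
  obtain ⟨z, hz⟩ := h
  refine ⟨fun j => (z j : ℂ), fun i => ?_⟩
  have h1 := congrArg (fun x : ℝ => (x : ℂ)) (hz i)
  simp only [Mon.val] at h1 ⊢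
  push_cast at h1
  exact h1

theorem result :
    -- (1) Machines deciding `HN` over `ℝ` with time bound `t`.
    (∀ (E : Encoding ℝ) (M : Machine ℝ) (t : ℕ → ℕ), Monotone t →
      (∀ (m k : ℕ) (deg : Fin k → ℕ) (a : Coef (Fin m) deg → ℝ), ∃ b : Bool,
        M.answer isNonneg (t (size m deg)) (E.code a) = some b ∧ (b = true ↔ Solvable deg a)) →
      ∀ N, 30000 ≤ N → N ^ 4 ≤ (200000 * t N) ^ 3) ∧
    -- (2) Machines which distinguish the systems with a common zero in `{0, 1} ^ m` from the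
    -- systems without common zero in `ℂ ^ m`.
    (∀ (E : Encoding ℝ) (M : Machine ℝ) (t : ℕ → ℕ), Monotone t →
      (∀ (m k : ℕ) (deg : Fin k → ℕ) (a : Coef (Fin m) deg → ℝ), Solvable01 deg a →
        M.answer isNonneg (t (size m deg)) (E.code a) = some true) →
      (∀ (m k : ℕ) (deg : Fin k → ℕ) (a : Coef (Fin m) deg → ℝ), ¬ SolvableC deg a →
        M.answer isNonneg (t (size m deg)) (E.code a) = some false) →
      ∀ N, 30000 ≤ N → N ^ 4 ≤ (200000 * t N) ^ 3) ∧
    -- (3) Nondeterministic machines with time bound `t` and `g` guesses, for the same problem: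
    -- certificates for unsolvability.
    (∀ (E : Encoding ℝ) (M : Machine ℝ) (t g : ℕ → ℕ), Monotone t → Monotone g →
      (∀ (m k : ℕ) (deg : Fin k → ℕ) (a : Coef (Fin m) deg → ℝ), Solvable01 deg a →
        ¬ ∃ y : Fin (g (size m deg)) → ℝ,
          M.answer isNonneg (t (size m deg)) (E.code a ++ List.ofFn y) = some true) →
      (∀ (m k : ℕ) (deg : Fin k → ℕ) (a : Coef (Fin m) deg → ℝ), ¬ SolvableC deg a →
        ∃ y : Fin (g (size m deg)) → ℝ,
          M.answer isNonneg (t (size m deg)) (E.code a ++ List.ofFn y) = some true) →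
      ∀ N, 30000 ≤ N → N ^ 4 ≤ (200000 * (t N + g N)) ^ 3) ∧
    -- (4) The same for computation trees for one format, and the linear upper bound for the
    -- nondeterministic recognition of solvability over `ℝ`.
    (∀ n, 5 ≤ n → ∃ deg : Fin (4 * n + 4) → ℕ, (∀ i, deg i ≤ 3) ∧
      n ^ 3 ≤ size (4 * n) deg ∧ size (4 * n) deg ≤ 240 * n ^ 3 ∧
      ∀ (N : ℕ) (ord : Fin N ≃ Coef (Fin (4 * n)) deg),
        (∃ T : H546R2.BS.Tree ℝ, T.depth ≤ 9 * N ∧ ∀ a : Coef (Fin (4 * n)) deg → ℝ,
          (∃ y : Fin (4 * n) → ℝ, T.Acc isNonneg (List.ofFn (a ∘ ord) ++ List.ofFn y)) ↔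
            Solvable deg a) ∧
        ∀ (T : H546R2.BS.Tree ℝ) (g : ℕ),
          (∀ a : Coef (Fin (4 * n)) deg → ℝ, Solvable01 deg a →
            ¬ ∃ y : Fin g → ℝ, T.Acc isNonneg (List.ofFn (a ∘ ord) ++ List.ofFn y)) →
          (∀ a : Coef (Fin (4 * n)) deg → ℝ, ¬ SolvableC deg a →
            ∃ y : Fin g → ℝ, T.Acc isNonneg (List.ofFn (a ∘ ord) ++ List.ofFn y)) →
          N ^ 4 ≤ (30000 * (T.depth + g)) ^ 3) := by
  have h01 : ∀ (m k : ℕ) (deg : Fin k → ℕ) (a : Coef (Fin m) deg → ℝ), Solvable01 deg a →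
      Solvable deg a := fun m k deg a ⟨z, _, hz⟩ => ⟨z, hz⟩
  have h2 : (∀ (E : Encoding ℝ) (M : Machine ℝ) (t : ℕ → ℕ), Monotone t →
      (∀ (m k : ℕ) (deg : Fin k → ℕ) (a : Coef (Fin m) deg → ℝ), Solvable01 deg a →
        M.answer isNonneg (t (size m deg)) (E.code a) = some true) →
      (∀ (m k : ℕ) (deg : Fin k → ℕ) (a : Coef (Fin m) deg → ℝ), ¬ SolvableC deg a →
        M.answer isNonneg (t (size m deg)) (E.code a) = some false) →
      ∀ N, 30000 ≤ N → N ^ 4 ≤ (200000 * t N) ^ 3) := by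
    intro E M t ht hM₀ hM₁ N hN
    exact machine_lower_det hard_real E M t ht hM₀ hM₁ N hN
  refine ⟨?_, h2, ?_, ?_⟩
  · intro E M t ht hM N hN
    refine h2 E M t ht ?_ ?_ N hN
    · intro m k deg a ha
      obtain ⟨b, hb1, hb2⟩ := hM m k deg a
      rw [hb1, hb2.mpr (h01 m k deg a ha)]
    · intro m k deg a ha
      obtain ⟨b, hb1, hb2⟩ := hM m k deg a
      rw [hb1]
      cases b
      · rfl
      · exact absurd (solvableC_of_solvable deg a (hb2.mp rfl)) ha
  · intro E M t g ht hg hM₀ hM₁ N hN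
    exact machine_lower hard_real E M true t g ht hg hM₀ hM₁ N hN
  · intro n hn
    refine ⟨degF n, degF_le n, le_size n, size_le n (by omega), ?_⟩
    intro N ord
    have hN : N = size (4 * n) (degF n) := by
      have := Fintype.card_congr ord
      rwa [Fintype.card_fin] at this
    refine ⟨?_, ?_⟩
    · exact tree_solvable (degF n) ord (zeroTestOrd ℝ) 3 (degF_le n)
    · intro T g hT₀ hT₁
      have h := lower_format hard_real n hn ord T g hT₀ hT₁
      exact pow_form (by rw [hN]; exact size_le n (by omega)) h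

end Pool.Agent.Results.MP_641cb6_lc.RealFourThirdsPower
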